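import Pool.Agent.H570R2.Modp.Stubs2
import Pool.Agent.H549R2.PM7

/-!
# Adding a constant to the number of satisfying assignments
-/

namespace Pool.Agent.H570R2.Mono

open Pool.Agent.NPC.Cnt Pool.Agent.H549R2.PM

theorem lt_freshV {φ : CNF ℕ} {v : ℕ} (h : v ∈ vars φ) : v < freshV φ := by
  have h1 : v ∈ φ.flatten.map Prod.snd := by simpa [vars] using h
  have h2 : v ≤ (φ.flatten.map Prod.snd).sum := List.le_sum_of_mem h1
  unfold freshV; omega

theorem mem_vars_addC {c : ℕ} {φ : CNF ℕ} {v : ℕ} :
    v ∈ vars (addC c φ) ↔ v ∈ vars φ ∨ ∃ i < c, v = freshV φ + i := by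
  constructor
  · intro h
    obtain ⟨C, hC, b, hb⟩ := mem_vars.1 h
    simp only [addC, List.mem_append, List.mem_map, List.mem_flatMap, List.mem_range] at hC
    rcases hC with ((⟨D, hD, rfl⟩ | ⟨i, hi, j, hj, rfl⟩) | ⟨i, hi, w, hw, rfl⟩) | ⟨i, hi, rfl⟩
    · simp only [List.mem_append, List.mem_map, List.mem_range, Prod.mk.injEq] at hb
      rcases hb with hb | ⟨i, hi, _, hv⟩
      · exact Or.inl (mem_vars.2 ⟨D, hD, b, hb⟩)
      · exact Or.inr ⟨i, hi, hv.symm⟩
    · simp only [List.mem_cons, Prod.mk.injEq, List.not_mem_nil, or_false] at hb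
      rcases hb with ⟨_, hv⟩ | ⟨_, hv⟩
      · exact Or.inr ⟨i, hi, hv⟩
      · exact Or.inr ⟨j, by omega, hv⟩
    · simp only [List.mem_cons, Prod.mk.injEq, List.not_mem_nil, or_false] at hb
      rcases hb with ⟨_, hv⟩ | ⟨_, hv⟩
      · exact Or.inr ⟨i, hi, hv⟩
      · exact Or.inl (hv ▸ ((mem_vsL _ _).1 hw))
    · simp only [List.mem_cons, Prod.mk.injEq, List.not_mem_nil, or_false] at hb
      rcases hb with ⟨_, hv⟩ | ⟨_, hv⟩
      · exact Or.inr ⟨i, hi, hv⟩
      · exact Or.inr ⟨i, hi, hv⟩
  · rintro (h | ⟨i, hi, rfl⟩)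
    · obtain ⟨C, hC, b, hb⟩ := mem_vars.1 h
      refine mem_vars.2 ⟨C ++ (List.range c).map (fun i => (true, freshV φ + i)), ?_, b, ?_⟩
      · simp only [addC, List.mem_append, List.mem_map]
        exact Or.inl (Or.inl (Or.inl ⟨C, hC, rfl⟩))
      · exact List.mem_append_left _ hb
    · refine mem_vars.2 ⟨[(true, freshV φ + i), (false, freshV φ + i)], ?_, true, ?_⟩
      · simp only [addC, List.mem_append, List.mem_map, List.mem_range]
        exact Or.inr ⟨i, hi, rfl⟩
      · simp

theorem satBy_addC {c : ℕ} {φ : CNF ℕ} {S : Finset ℕ} :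
    SatBy S (addC c φ) ↔
      (∀ C ∈ φ, (∃ l ∈ C, l.1 = decide (l.2 ∈ S)) ∨ ∃ i < c, freshV φ + i ∈ S) ∧
      (∀ i < c, ∀ j < i, ¬ (freshV φ + i ∈ S ∧ freshV φ + j ∈ S)) ∧
      (∀ i < c, freshV φ + i ∈ S → ∀ v ∈ vars φ, v ∈ S) := by
  constructor
  · intro h
    refine ⟨?_, ?_, ?_⟩
    · intro C hC
      obtain ⟨l, hl, hl'⟩ := h (C ++ (List.range c).map (fun i => (true, freshV φ + i))) (by
        simp only [addC, List.mem_append, List.mem_map]
        exact Or.inl (Or.inl (Or.inl ⟨C, hC, rfl⟩)))
      rcases List.mem_append.1 hl with hl | hl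
      · exact Or.inl ⟨l, hl, hl'⟩
      · obtain ⟨i, hi, rfl⟩ := List.mem_map.1 hl
        exact Or.inr ⟨i, List.mem_range.1 hi, of_decide_eq_true hl'.symm⟩
    · rintro i hi j hj ⟨h1, h2⟩
      obtain ⟨l, hl, hl'⟩ := h [(false, freshV φ + i), (false, freshV φ + j)] (by
        simp only [addC, List.mem_append, List.mem_map, List.mem_flatMap, List.mem_range]
        exact Or.inl (Or.inl (Or.inr ⟨i, hi, j, hj, rfl⟩)))
      simp only [List.mem_cons, List.not_mem_nil, or_false] at hl
      rcases hl with rfl | rfl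
      · simp [h1] at hl'
      · simp [h2] at hl'
    · intro i hi h1 v hv
      obtain ⟨l, hl, hl'⟩ := h [(false, freshV φ + i), (true, v)] (by
        simp only [addC, List.mem_append, List.mem_map, List.mem_flatMap, List.mem_range]
        exact Or.inl (Or.inr ⟨i, hi, v, (mem_vsL _ _).2 hv, rfl⟩))
      simp only [List.mem_cons, List.not_mem_nil, or_false] at hl
      rcases hl with rfl | rfl
      · simp [h1] at hl'
      · simpa using hl'
  · rintro ⟨h1, h2, h3⟩ D hD
    simp only [addC, List.mem_append, List.mem_map, List.mem_flatMap, List.mem_range] at hD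
    rcases hD with ((⟨C, hC, rfl⟩ | ⟨i, hi, j, hj, rfl⟩) | ⟨i, hi, w, hw, rfl⟩) | ⟨i, hi, rfl⟩
    · rcases h1 C hC with ⟨l, hl, hl'⟩ | ⟨i, hi, hs⟩
      · exact ⟨l, List.mem_append_left _ hl, hl'⟩
      · exact ⟨(true, freshV φ + i), List.mem_append_right _
          (List.mem_map.2 ⟨i, List.mem_range.2 hi, rfl⟩), by simp [hs]⟩
    · by_cases hs : freshV φ + i ∈ S
      · by_cases ht : freshV φ + j ∈ S
        · exact absurd ⟨hs, ht⟩ (h2 i hi j hj)
        · exact ⟨(false, freshV φ + j), by simp, by simp [ht]⟩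
      · exact ⟨(false, freshV φ + i), by simp, by simp [hs]⟩
    · by_cases hs : freshV φ + i ∈ S
      · exact ⟨(true, w), by simp, by simp [h3 i hi hs w ((mem_vsL _ _).1 hw)]⟩
      · exact ⟨(false, freshV φ + i), by simp, by simp [hs]⟩
    · by_cases hs : freshV φ + i ∈ S
      · exact ⟨(true, freshV φ + i), by simp, by simp [hs]⟩
      · exact ⟨(false, freshV φ + i), by simp, by simp [hs]⟩

theorem stub_add : StubAdd := by
  intro c φ
  have hfr : ∀ i, freshV φ + i ∉ vars φ := fun i h => by
    have := lt_freshV h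
    omega
  have key : (vars (addC c φ)).powerset.filter (fun S => SatBy S (addC c φ)) =
      ((vars φ).powerset.filter (fun S => SatBy S φ)) ∪
        (Finset.range c).image (fun i => insert (freshV φ + i) (vars φ)) := by
    ext S
    simp only [Finset.mem_filter, Finset.mem_powerset, Finset.mem_union, Finset.mem_image,
      Finset.mem_range]
    constructor
    · rintro ⟨hS, hsat⟩
      obtain ⟨h1, h2, h3⟩ := satBy_addC.1 hsat
      by_cases hz : ∃ i < c, freshV φ + i ∈ S
      · obtain ⟨i, hi, hz⟩ := hz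
        refine Or.inr ⟨i, hi, ?_⟩
        ext v
        simp only [Finset.mem_insert]
        constructor
        · rintro (rfl | hv)
          · exact hz
          · exact h3 i hi hz v hv
        · intro hv
          rcases mem_vars_addC.1 (hS hv) with h | ⟨j, hj, rfl⟩
          · exact Or.inr h
          · left
            rcases lt_trichotomy i j with hij | hij | hij
            · exact absurd ⟨hv, hz⟩ (h2 j hj i hij)
            · rw [hij]
            · exact absurd ⟨hz, hv⟩ (h2 i hi j hij)
      · left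
        refine ⟨fun v hv => ?_, fun C hC => ?_⟩
        · rcases mem_vars_addC.1 (hS hv) with h | ⟨j, hj, rfl⟩
          · exact h
          · exact absurd ⟨j, hj, hv⟩ hz
        · rcases h1 C hC with h | h
          · exact h
          · exact absurd h hz
    · rintro (⟨hS, hsat⟩ | ⟨i, hi, rfl⟩)
      · refine ⟨fun v hv => mem_vars_addC.2 (Or.inl (hS hv)), satBy_addC.2 ⟨?_, ?_, ?_⟩⟩
        · exact fun C hC => Or.inl (hsat C hC)
        · exact fun i _ j _ h => hfr i (hS h.1)
        · exact fun i _ h => absurd (hS h) (hfr i)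
      · refine ⟨fun v hv => ?_, satBy_addC.2 ⟨?_, ?_, ?_⟩⟩
        · rcases Finset.mem_insert.1 hv with rfl | hv
          · exact mem_vars_addC.2 (Or.inr ⟨i, hi, rfl⟩)
          · exact mem_vars_addC.2 (Or.inl hv)
        · exact fun C _ => Or.inr ⟨i, hi, Finset.mem_insert_self _ _⟩
        · rintro k _ j hj ⟨h1, h2⟩
          have e1 : freshV φ + k = freshV φ + i := by
            rcases Finset.mem_insert.1 h1 with h | h
            · exact h
            · exact absurd h (hfr k)
          have e2 : freshV φ + j = freshV φ + i := by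
            rcases Finset.mem_insert.1 h2 with h | h
            · exact h
            · exact absurd h (hfr j)
          omega
        · exact fun j _ _ v hv => Finset.mem_insert_of_mem hv
  unfold satCount
  rw [key, Finset.card_union_of_disjoint, Finset.card_image_of_injOn, Finset.card_range]
  · intro i _ j _ hij
    have h1 : freshV φ + i ∈ insert (freshV φ + j) (vars φ) := by
      have : insert (freshV φ + i) (vars φ) = insert (freshV φ + j) (vars φ) := hij
      rw [← this]; exact Finset.mem_insert_self _ _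
    rcases Finset.mem_insert.1 h1 with h | h
    · omega
    · exact absurd h (hfr i)
  · rw [Finset.disjoint_left]
    intro S hS hS'
    obtain ⟨i, _, rfl⟩ := Finset.mem_image.1 hS'
    have h1 := Finset.mem_powerset.1 (Finset.mem_filter.1 hS).1
    exact hfr i (h1 (Finset.mem_insert_self _ _))

end Pool.Agent.H570R2.Mono
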